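import Mathlib

/-!
# Ruziewicz's problem: prescribed modulus of continuity versus pointwise oscillation rate

We prove that for every admissible pair `w, φ` there is a function `f : ℝ → ℝ` with
`|f (x + h) - f x| < w h` for all `x` and all `0 < |h| < δ`, and with
`limsup_{h → 0} |(f (x + h) - f x) / φ h| = ∞` at every `x`.
-/

namespace Pool.Agent.Results.MP_a2bddf_an.RuziewiczPositive

open Set Filter Topology

/-- A record scale: `u` such that `w u / u ≤ 2 (w v / v)` for all `0 < v ≤ u`. -/
theorem exists_record {δ : ℝ} {w : ℝ → ℝ}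
    (hwpos : ∀ h : ℝ, 0 < |h| → |h| < δ → 0 < w h)
    (hwmono : ∀ h h' : ℝ, 0 < |h| → |h| ≤ |h'| → |h'| < δ → w h ≤ w h')
    (hw1 : Tendsto (fun h : ℝ => w h / |h|) (𝓝[≠] 0) atTop)
    (h0 : ℝ) (h0pos : 0 < h0) (h0δ : h0 < δ) :
    ∃ u, 0 < u ∧ u ≤ h0 ∧ ∀ v, 0 < v → v ≤ u → w u / u ≤ 2 * (w v / v) := by
  -- lower bound for the quotient on `(0, h0]`
  obtain ⟨η, hη, hη1⟩ : ∃ η > 0, ∀ h : ℝ, 0 < h → h < η → 1 ≤ w h / h := by
    have := (hw1.eventually (eventually_ge_atTop 1))
    rw [eventually_nhdsWithin_iff, Metric.eventually_nhds_iff] at this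
    obtain ⟨η, hη, H⟩ := this
    refine ⟨η, hη, fun h hh1 hh2 => ?_⟩
    have := H (y := h) (by rw [dist_zero_right, Real.norm_eq_abs, abs_of_pos hh1]; exact hh2)
      (by simpa using hh1.ne')
    rwa [abs_of_pos hh1] at this
  set A : Set ℝ := (fun v => w v / v) '' Ioc 0 h0 with hA
  have hAne : A.Nonempty := ⟨_, h0, ⟨h0pos, le_rfl⟩, rfl⟩
  set m : ℝ := min (η / 2) h0 with hm
  have hmpos : 0 < m := lt_min (by linarith) h0pos
  have hwm : 0 < w m := hwpos m (by rw [abs_of_pos hmpos]; exact hmpos)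
    (by rw [abs_of_pos hmpos]; exact lt_of_le_of_lt (min_le_right _ _) h0δ)
  have hlow : ∀ y ∈ A, min 1 (w m / h0) ≤ y := by
    rintro _ ⟨v, ⟨hv0, hv1⟩, rfl⟩
    rcases lt_or_ge v η with hv | hv
    · exact le_trans (min_le_left _ _) (hη1 v hv0 hv)
    · refine le_trans (min_le_right _ _) ?_
      have hmv : m ≤ v := le_trans (min_le_left _ _) (by linarith)
      have : w m ≤ w v := hwmono m v (by rw [abs_of_pos hmpos]; exact hmpos)
        (by rw [abs_of_pos hmpos, abs_of_pos hv0]; exact hmv)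
        (by rw [abs_of_pos hv0]; linarith)
      exact div_le_div₀ (le_trans hwm.le this) this hv0 hv1
  have hBdd : BddBelow A := ⟨_, hlow⟩
  set r := sInf A with hr
  have hrpos : 0 < r := lt_of_lt_of_le (lt_min one_pos (div_pos hwm h0pos)) (le_csInf hAne hlow)
  obtain ⟨y, ⟨u, ⟨hu0, hu1⟩, rfl⟩, hu2⟩ := exists_lt_of_csInf_lt hAne (show r < 2 * r by linarith)
  refine ⟨u, hu0, hu1, fun v hv0 hv1 => ?_⟩
  have : r ≤ w v / v := csInf_le hBdd ⟨v, ⟨hv0, hv1.trans hu1⟩, rfl⟩
  simp only at hu2
  linarith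

/-- The sparse sequence of record scales. -/
theorem exists_scales {δ : ℝ} (hδ : 0 < δ) {w : ℝ → ℝ}
    (hwpos : ∀ h : ℝ, 0 < |h| → |h| < δ → 0 < w h)
    (hwmono : ∀ h h' : ℝ, 0 < |h| → |h| ≤ |h'| → |h'| < δ → w h ≤ w h')
    (hw0 : Tendsto w (𝓝[≠] 0) (𝓝 0))
    (hw1 : Tendsto (fun h : ℝ => w h / |h|) (𝓝[≠] 0) atTop) :
    ∃ u : ℕ → ℝ, (∀ k, 0 < u k) ∧ (∀ k, u k < δ) ∧
      (∀ k v, 0 < v → v ≤ u k → w (u k) / u k ≤ 2 * (w v / v)) ∧
      (∀ k, u (k + 1) ≤ u k / 2) ∧
      (∀ k, w (u (k + 1)) ≤ w (u k) / 100) ∧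
      (∀ k, 100 * (w (u k) / u k) ≤ w (u (k + 1)) / u (k + 1)) := by
  have step : ∀ a : ℝ, 0 < a → a < δ → ∃ b : ℝ, 0 < b ∧ b < δ ∧
      (∀ v, 0 < v → v ≤ b → w b / b ≤ 2 * (w v / v)) ∧ b ≤ a / 2 ∧ w b ≤ w a / 100 ∧
      100 * (w a / a) ≤ w b / b := by
    intro a ha0 ha1
    have hwa : 0 < w a := hwpos a (by rwa [abs_of_pos ha0]) (by rwa [abs_of_pos ha0])
    have e1 : ∀ᶠ h in 𝓝[≠] (0 : ℝ), w h < w a / 100 := hw0.eventually (gt_mem_nhds (by positivity))
    have e2 : ∀ᶠ h in 𝓝[≠] (0 : ℝ), 100 * (w a / a) ≤ w h / |h| :=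
      hw1.eventually (eventually_ge_atTop _)
    have e3 := e1.and e2
    rw [eventually_nhdsWithin_iff, Metric.eventually_nhds_iff] at e3
    obtain ⟨η, hη, H⟩ := e3
    have hm0 : 0 < min (η / 2) (a / 2) := lt_min (by linarith) (by linarith)
    obtain ⟨b, hb0, hb1, hb2⟩ := exists_record hwpos hwmono hw1 (min (η / 2) (a / 2)) hm0
      (lt_of_le_of_lt (min_le_right _ _) (by linarith))
    have hbη : b ≤ η / 2 := hb1.trans (min_le_left _ _)
    have hba : b ≤ a / 2 := hb1.trans (min_le_right _ _)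
    have hb := H (y := b) (by rw [dist_zero_right, Real.norm_eq_abs, abs_of_pos hb0]; linarith)
      (by simpa using hb0.ne')
    rw [abs_of_pos hb0] at hb
    exact ⟨b, hb0, by linarith, hb2, hba, hb.1.le, hb.2⟩
  obtain ⟨a0, ha00, ha01, ha02⟩ := exists_record hwpos hwmono hw1 (δ / 2) (by linarith)
    (by linarith)
  choose! g hg0 hg1 hg2 hg3 hg4 hg5 using step
  let u : ℕ → ℝ := fun k => g^[k] a0
  have hu : ∀ k, u (k + 1) = g (u k) := fun k => Function.iterate_succ_apply' g k a0
  have hpos : ∀ k, 0 < u k ∧ u k < δ := by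
    intro k
    induction k with
    | zero => exact ⟨ha00, by show a0 < δ; linarith⟩
    | succ k ih => rw [hu]; exact ⟨hg0 _ ih.1 ih.2, hg1 _ ih.1 ih.2⟩
  refine ⟨u, fun k => (hpos k).1, fun k => (hpos k).2, ?_, ?_, ?_, ?_⟩
  · intro k
    cases k with
    | zero => exact ha02
    | succ k => rw [hu]; exact hg2 _ (hpos k).1 (hpos k).2
  · intro k; rw [hu]; exact hg3 _ (hpos k).1 (hpos k).2
  · intro k; rw [hu]; exact hg4 _ (hpos k).1 (hpos k).2
  · intro k; rw [hu]; exact hg5 _ (hpos k).1 (hpos k).2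

/-- Decreasing geometric tail: each term at most `1/100` of the previous one. -/
theorem tail_bound {a : ℕ → ℝ} (ha : ∀ k, 0 < a k) (h : ∀ k, a (k + 1) ≤ a k / 100) (j : ℕ) :
    Summable (fun i => a (i + j)) ∧ ∑' i, a (i + j) ≤ a j * (100 / 99) := by
  have hb : ∀ i, a (i + j) ≤ a j * (1 / 100 : ℝ) ^ i := by
    intro i
    induction i with
    | zero => simp
    | succ i ih =>
      have h1 := h (i + j)
      have e : i + 1 + j = i + j + 1 := by ring
      rw [e, pow_succ]
      have : a (i + j) / 100 ≤ a j * (1 / 100 : ℝ) ^ i / 100 := by linarith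
      calc a (i + j + 1) ≤ a (i + j) / 100 := h1
        _ ≤ a j * (1 / 100 : ℝ) ^ i / 100 := this
        _ = a j * ((1 / 100 : ℝ) ^ i * (1 / 100)) := by ring
  have hg : HasSum (fun i : ℕ => a j * (1 / 100 : ℝ) ^ i) (a j * (100 / 99)) := by
    have := (hasSum_geometric_of_lt_one (r := (1 / 100 : ℝ)) (by norm_num) (by norm_num)).mul_left
      (a j)
    rwa [show (1 - (1 / 100 : ℝ))⁻¹ = 100 / 99 by norm_num] at this
  have hs : Summable (fun i => a (i + j)) :=
    Summable.of_nonneg_of_le (fun i => (ha _).le) hb hg.summable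
  refine ⟨hs, ?_⟩
  rw [← hg.tsum_eq]
  exact hs.tsum_le_tsum hb hg.summable

/-- Increasing geometric initial segments. -/
theorem init_bound {L : ℕ → ℝ} (hL : ∀ k, 0 < L k) (h : ∀ k, 100 * L k ≤ L (k + 1)) (j : ℕ) :
    ∑ i ∈ Finset.range j, L i ≤ L j / 99 := by
  induction j with
  | zero => simp; have := hL 0; positivity
  | succ j ih =>
    rw [Finset.sum_range_succ]
    have h1 := h j
    have h2 := hL j
    linarith

theorem sin_shift (y : ℝ) :
    1 ≤ |Real.sin (y + Real.pi / 2) - Real.sin y| ∨ 1 ≤ |Real.sin (y - Real.pi / 2) - Real.sin y| := by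
  rw [Real.sin_add_pi_div_two, Real.sin_sub_pi_div_two]
  by_contra hcon
  push Not at hcon
  obtain ⟨h1, h2⟩ := hcon
  rw [abs_lt] at h1 h2
  have h3 := Real.sin_sq_add_cos_sq y
  nlinarith [h1.1, h1.2, h2.1, h2.2]

/-- **Positive answer to Ruziewicz's problem.** -/
theorem result (δ : ℝ) (hδ : 0 < δ) (w φ : ℝ → ℝ)
    (hwpos : ∀ h : ℝ, 0 < |h| → |h| < δ → 0 < w h)
    (hφpos : ∀ h : ℝ, 0 < |h| → |h| < δ → 0 < φ h)
    (hwmono : ∀ h h' : ℝ, 0 < |h| → |h| ≤ |h'| → |h'| < δ → w h ≤ w h')
    (hφmono : ∀ h h' : ℝ, 0 < |h| → |h| ≤ |h'| → |h'| < δ → φ h ≤ φ h')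
    (hw0 : Tendsto w (𝓝[≠] 0) (𝓝 0)) (_hφ0 : Tendsto φ (𝓝[≠] 0) (𝓝 0))
    (hw1 : Tendsto (fun h : ℝ => w h / |h|) (𝓝[≠] 0) atTop)
    (hwφ : Tendsto (fun h : ℝ => w h / φ h) (𝓝[≠] 0) atTop) :
    ∃ f : ℝ → ℝ,
      (∀ x h : ℝ, 0 < |h| → |h| < δ → |f (x + h) - f x| < w h) ∧
      ∀ x : ℝ, Filter.limsup (fun h : ℝ => ((|(f (x + h) - f x) / φ h| : ℝ) : EReal)) (𝓝[≠] 0)
        = ⊤ := by
  obtain ⟨u, hu0, huδ, hrec, huhalf, hadec, hLinc⟩ := exists_scales hδ hwpos hwmono hw0 hw1
  set a : ℕ → ℝ := fun k => w (u k) with ha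
  set L : ℕ → ℝ := fun k => w (u k) / u k with hL
  have hapos : ∀ k, 0 < a k := fun k =>
    hwpos _ (by rw [abs_of_pos (hu0 k)]; exact hu0 k) (by rw [abs_of_pos (hu0 k)]; exact huδ k)
  have hLpos : ∀ k, 0 < L k := fun k => div_pos (hapos k) (hu0 k)
  have hLa : ∀ k, L k * u k = a k := fun k => div_mul_cancel₀ _ (hu0 k).ne'
  -- scales tend to zero
  have hugeo : ∀ k, u k ≤ u 0 * (1 / 2 : ℝ) ^ k := by
    intro k
    induction k with
    | zero => simp
    | succ k ih =>
      calc u (k + 1) ≤ u k / 2 := huhalf k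
        _ ≤ u 0 * (1 / 2 : ℝ) ^ k / 2 := by linarith
        _ = u 0 * (1 / 2 : ℝ) ^ (k + 1) := by rw [pow_succ]; ring
  have hulim : Tendsto u atTop (𝓝 0) := by
    refine squeeze_zero (fun k => (hu0 k).le) hugeo ?_
    have := (tendsto_pow_atTop_nhds_zero_of_lt_one (r := (1 / 2 : ℝ)) (by norm_num)
      (by norm_num)).const_mul (u 0)
    simpa using this
  -- the terms
  obtain ⟨c, hc⟩ : ∃ c : ℝ, c = 1 / 20 := ⟨_, rfl⟩
  have hcpos : 0 < c := by rw [hc]; norm_num
  have hca : ∀ k, 0 < c * a k := fun k => mul_pos hcpos (hapos k)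
  let t : ℕ → ℝ → ℝ := fun k x => c * a k * Real.sin (2 * Real.pi * x / u k)
  have hpi := Real.pi_pos
  have hpi4 := Real.pi_lt_d2
  have hsumm : ∀ x, Summable fun k => t k x := by
    intro x
    have h0 : Summable fun k => c * a k := by
      have := (tail_bound hapos hadec 0).1
      simpa using this.mul_left c
    refine Summable.of_norm_bounded h0 ?_
    intro k
    have h1 : |Real.sin (2 * Real.pi * x / u k)| ≤ 1 := Real.abs_sin_le_one _
    rw [Real.norm_eq_abs, abs_mul, abs_of_pos (hca k)]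
    simpa using mul_le_mul_of_nonneg_left h1 (hca k).le
  -- two bounds for the increments of the terms
  have hd1 : ∀ k x h, |t k (x + h) - t k x| ≤ 2 * c * a k := by
    intro k x h
    have h1 : |Real.sin (2 * Real.pi * (x + h) / u k)| ≤ 1 := Real.abs_sin_le_one _
    have h2 : |Real.sin (2 * Real.pi * x / u k)| ≤ 1 := Real.abs_sin_le_one _
    have h3 : 0 < c * a k := hca k
    have h4 : t k (x + h) - t k x = c * a k * (Real.sin (2 * Real.pi * (x + h) / u k)
        - Real.sin (2 * Real.pi * x / u k)) := by simp only [t]; ring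
    rw [h4, abs_mul, abs_of_pos h3]
    have h5 : |Real.sin (2 * Real.pi * (x + h) / u k) - Real.sin (2 * Real.pi * x / u k)| ≤ 2 :=
      (abs_sub _ _).trans (by linarith)
    have h6 := mul_le_mul_of_nonneg_left h5 h3.le
    linarith
  have hsinlip : ∀ p q : ℝ, |Real.sin p - Real.sin q| ≤ |p - q| := by
    intro p q
    have := Real.lipschitzWith_sin.dist_le_mul p q
    simpa [Real.dist_eq] using this
  have hd2 : ∀ k x h, |t k (x + h) - t k x| ≤ 2 * Real.pi * c * |h| * L k := by
    intro k x h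
    have h3 : 0 < c * a k := hca k
    have h4 : t k (x + h) - t k x = c * a k * (Real.sin (2 * Real.pi * (x + h) / u k)
        - Real.sin (2 * Real.pi * x / u k)) := by simp only [t]; ring
    have h6 : 2 * Real.pi * (x + h) / u k - 2 * Real.pi * x / u k = 2 * Real.pi * h / u k := by
      ring
    rw [h4, abs_mul, abs_of_pos h3]
    calc c * a k * |Real.sin (2 * Real.pi * (x + h) / u k) - Real.sin (2 * Real.pi * x / u k)|
        ≤ c * a k * |2 * Real.pi * h / u k| := by
          rw [← h6]; exact mul_le_mul_of_nonneg_left (hsinlip _ _) h3.le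
      _ = 2 * Real.pi * c * |h| * L k := by
          rw [abs_div, abs_mul, abs_of_pos (hu0 k), abs_of_pos (by positivity : 0 < 2 * Real.pi)]
          simp only [hL, ha]; ring
  refine ⟨fun x => ∑' k, t k x, ?_, ?_⟩
  · -- the modulus of continuity
    intro x h hh0 hhδ
    have hex : ∃ j, u j < |h| := (hulim.eventually (gt_mem_nhds hh0)).exists
    classical
    let j := Nat.find hex
    have hj : u j < |h| := Nat.find_spec hex
    have hjmin : ∀ i < j, |h| ≤ u i := fun i hi => not_lt.1 (Nat.find_min hex hi)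
    have hwh : 0 < w h := hwpos h hh0 hhδ
    have hwabs : w |h| ≤ w h := hwmono _ _ (by rwa [abs_abs]) (by rw [abs_abs]) hhδ
    have haj : a j ≤ w h := by
      refine hwmono _ _ ?_ ?_ hhδ
      · rw [abs_of_pos (hu0 j)]; exact hu0 j
      · rw [abs_of_pos (hu0 j)]; exact hj.le
    -- the difference as a series
    have hsd : Summable fun k => t k (x + h) - t k x := (hsumm _).sub (hsumm _)
    have hsplit : (∑' k, t k (x + h)) - ∑' k, t k x
        = ∑ k ∈ Finset.range j, (t k (x + h) - t k x) +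
          ∑' k, (t (k + j) (x + h) - t (k + j) x) := by
      rw [← (hsumm _).tsum_sub (hsumm _), ← hsd.sum_add_tsum_nat_add j]
    have hpart1 : |∑ k ∈ Finset.range j, (t k (x + h) - t k x)| ≤ 4 * Real.pi * c * (100 / 99) * w h := by
      have h1 : |∑ k ∈ Finset.range j, (t k (x + h) - t k x)|
          ≤ ∑ k ∈ Finset.range j, 2 * Real.pi * c * |h| * L k :=
        (Finset.abs_sum_le_sum_abs _ _).trans (Finset.sum_le_sum fun k _ => hd2 k x h)
      rw [← Finset.mul_sum] at h1
      rcases Nat.eq_zero_or_pos j with hj0 | hj0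
      · rw [hj0]; simp only [Finset.range_zero, Finset.sum_empty, abs_zero]; positivity
      · obtain ⟨i, hi⟩ : ∃ i, j = i + 1 := ⟨j - 1, by omega⟩
        have h2 : ∑ k ∈ Finset.range j, L k ≤ L i * (100 / 99) := by
          rw [hi, Finset.sum_range_succ]
          have := init_bound hLpos hLinc i
          linarith
        have h3 : L i ≤ 2 * (w |h| / |h|) := hrec i |h| hh0 (hjmin i (by omega))
        have h4 : L i * |h| ≤ 2 * w h := by
          calc L i * |h| ≤ 2 * (w |h| / |h|) * |h| := mul_le_mul_of_nonneg_right h3 hh0.le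
            _ = 2 * w |h| := by field_simp
            _ ≤ 2 * w h := by linarith
        calc |∑ k ∈ Finset.range j, (t k (x + h) - t k x)|
            ≤ 2 * Real.pi * c * |h| * ∑ k ∈ Finset.range j, L k := h1
          _ ≤ 2 * Real.pi * c * |h| * (L i * (100 / 99)) :=
              mul_le_mul_of_nonneg_left h2 (by positivity)
          _ = 2 * Real.pi * c * (100 / 99) * (L i * |h|) := by ring
          _ ≤ 2 * Real.pi * c * (100 / 99) * (2 * w h) :=
              mul_le_mul_of_nonneg_left h4 (by positivity)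
          _ = 4 * Real.pi * c * (100 / 99) * w h := by ring
    have hpart2 : |∑' k, (t (k + j) (x + h) - t (k + j) x)| ≤ 2 * c * (100 / 99) * w h := by
      obtain ⟨hs, hle⟩ := tail_bound hapos hadec j
      have h1 : |∑' k, (t (k + j) (x + h) - t (k + j) x)| ≤ ∑' k, 2 * c * a (k + j) := by
        rw [← Real.norm_eq_abs]
        refine tsum_of_norm_bounded (hs.mul_left (2 * c)).hasSum ?_
        intro k
        rw [Real.norm_eq_abs]
        exact hd1 (k + j) x h
      rw [tsum_mul_left] at h1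
      calc |∑' k, (t (k + j) (x + h) - t (k + j) x)| ≤ 2 * c * ∑' k, a (k + j) := h1
        _ ≤ 2 * c * (a j * (100 / 99)) := mul_le_mul_of_nonneg_left hle (by positivity)
        _ ≤ 2 * c * (w h * (100 / 99)) := by
            refine mul_le_mul_of_nonneg_left ?_ (by positivity)
            exact mul_le_mul_of_nonneg_right haj (by norm_num)
        _ = 2 * c * (100 / 99) * w h := by ring
    show |(∑' k, t k (x + h)) - ∑' k, t k x| < w h
    rw [hsplit]
    refine (abs_add_le _ _).trans_lt ?_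
    have h5 : 4 * Real.pi * c * (100 / 99) * w h ≤ 4 * 3.15 * c * (100 / 99) * w h := by
      have : 0 ≤ c * (100 / 99) * w h := by positivity
      nlinarith
    have h6 : 4 * 3.15 * c * (100 / 99) * w h + 2 * c * (100 / 99) * w h < w h := by
      rw [hc]; linarith
    linarith
  · -- oscillation
    intro x
    rw [eq_top_iff]
    -- along the scales
    have key : ∀ k, ∃ h, |h| = u k / 4 ∧ c / 2 * a k ≤ |(∑' i, t i (x + h)) - ∑' i, t i x| := by
      intro k
      have hshift := sin_shift (2 * Real.pi * x / u k)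
      have hk : ∃ h, |h| = u k / 4 ∧ c * a k ≤ |t k (x + h) - t k x| := by
        have h3 : 0 < c * a k := hca k
        have hne := (hu0 k).ne'
        rcases hshift with hs | hs
        · refine ⟨u k / 4, abs_of_pos (by have := hu0 k; positivity), ?_⟩
          have e : 2 * Real.pi * (x + u k / 4) / u k = 2 * Real.pi * x / u k + Real.pi / 2 := by
            field_simp; ring
          have h4 : t k (x + u k / 4) - t k x = c * a k *
              (Real.sin (2 * Real.pi * x / u k + Real.pi / 2)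
                - Real.sin (2 * Real.pi * x / u k)) := by
            simp only [t]; rw [e]; ring
          rw [h4, abs_mul, abs_of_pos h3]
          have h5 := mul_le_mul_of_nonneg_left hs h3.le
          linarith
        · refine ⟨-(u k / 4), by rw [abs_neg]; exact abs_of_pos (by have := hu0 k; positivity), ?_⟩
          have e : 2 * Real.pi * (x + -(u k / 4)) / u k = 2 * Real.pi * x / u k - Real.pi / 2 := by
            field_simp; ring
          have h4 : t k (x + -(u k / 4)) - t k x = c * a k *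
              (Real.sin (2 * Real.pi * x / u k - Real.pi / 2)
                - Real.sin (2 * Real.pi * x / u k)) := by
            simp only [t]; rw [e]; ring
          rw [h4, abs_mul, abs_of_pos h3]
          have h5 := mul_le_mul_of_nonneg_left hs h3.le
          linarith
      obtain ⟨h, hh1, hh2⟩ := hk
      refine ⟨h, hh1, ?_⟩
      have hsd : Summable fun k => t k (x + h) - t k x := (hsumm _).sub (hsumm _)
      have hsplit : (∑' k, t k (x + h)) - ∑' k, t k x
          = ∑ i ∈ Finset.range k, (t i (x + h) - t i x) + (t k (x + h) - t k x) +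
            ∑' i, (t (i + (k + 1)) (x + h) - t (i + (k + 1)) x) := by
        rw [← (hsumm _).tsum_sub (hsumm _), ← hsd.sum_add_tsum_nat_add (k + 1),
          Finset.sum_range_succ]
      have hp1 : |∑ i ∈ Finset.range k, (t i (x + h) - t i x)| ≤ c * a k / 50 := by
        have h1 : |∑ i ∈ Finset.range k, (t i (x + h) - t i x)|
            ≤ ∑ i ∈ Finset.range k, 2 * Real.pi * c * |h| * L i :=
          (Finset.abs_sum_le_sum_abs _ _).trans (Finset.sum_le_sum fun i _ => hd2 i x h)
        rw [← Finset.mul_sum] at h1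
        calc |∑ i ∈ Finset.range k, (t i (x + h) - t i x)|
            ≤ 2 * Real.pi * c * |h| * ∑ i ∈ Finset.range k, L i := h1
          _ ≤ 2 * Real.pi * c * |h| * (L k / 99) :=
              mul_le_mul_of_nonneg_left (init_bound hLpos hLinc k) (by positivity)
          _ = Real.pi * (c * (L k * u k)) / 198 := by rw [hh1]; ring
          _ = Real.pi * (c * a k) / 198 := by rw [hLa]
          _ ≤ c * a k / 50 := by
              have h3 : 0 < c * a k := hca k
              have h9 := mul_le_mul_of_nonneg_right hpi4.le h3.le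
              linarith
      have hp2 : |∑' i, (t (i + (k + 1)) (x + h) - t (i + (k + 1)) x)| ≤ c * a k / 40 := by
        obtain ⟨hs, hle⟩ := tail_bound hapos hadec (k + 1)
        have h1 : |∑' i, (t (i + (k + 1)) (x + h) - t (i + (k + 1)) x)|
            ≤ ∑' i, 2 * c * a (i + (k + 1)) := by
          rw [← Real.norm_eq_abs]
          refine tsum_of_norm_bounded (hs.mul_left (2 * c)).hasSum ?_
          intro i
          rw [Real.norm_eq_abs]
          exact hd1 (i + (k + 1)) x h
        rw [tsum_mul_left] at h1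
        calc |∑' i, (t (i + (k + 1)) (x + h) - t (i + (k + 1)) x)|
            ≤ 2 * c * ∑' i, a (i + (k + 1)) := h1
          _ ≤ 2 * c * (a (k + 1) * (100 / 99)) := mul_le_mul_of_nonneg_left hle (by positivity)
          _ ≤ 2 * c * (a k / 100 * (100 / 99)) := by
              refine mul_le_mul_of_nonneg_left ?_ (by positivity)
              exact mul_le_mul_of_nonneg_right (hadec k) (by norm_num)
          _ ≤ c * a k / 40 := by
              have h3 : 0 < c * a k := hca k
              have h9 : 2 * c * (a k / 100 * (100 / 99)) = (c * a k) * (2 / 99) := by ring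
              rw [h9]
              linarith
      rw [hsplit]
      set P := ∑ i ∈ Finset.range k, (t i (x + h) - t i x)
      set Q := t k (x + h) - t k x
      set R := ∑' i, (t (i + (k + 1)) (x + h) - t (i + (k + 1)) x)
      have h3 : 0 < c * a k := hca k
      have h8 : c / 2 * a k = (c * a k) / 2 := by ring
      have h7 : |Q| ≤ |P + Q + R| + |P| + |R| := by
        have : Q = (P + Q + R) + (-P) + (-R) := by ring
        calc |Q| = |(P + Q + R) + (-P) + (-R)| := by rw [← this]
          _ ≤ |P + Q + R| + |(-P)| + |(-R)| := abs_add_three _ _ _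
          _ = |P + Q + R| + |P| + |R| := by rw [abs_neg, abs_neg]
      rw [h8]
      linarith
    -- limsup is top
    choose hk hk1 hk2 using key
    have hktend : Tendsto hk atTop (𝓝[≠] 0) := by
      rw [tendsto_nhdsWithin_iff]
      constructor
      · rw [tendsto_zero_iff_abs_tendsto_zero]
        have : (abs ∘ hk) = fun k => u k / 4 := by funext k; exact hk1 k
        rw [this]
        simpa using hulim.div_const 4
      · refine Eventually.of_forall fun k => ?_
        simp only [mem_compl_iff, mem_singleton_iff]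
        intro h0
        have h1 := hk1 k
        rw [h0, abs_zero] at h1
        have h2 := hu0 k
        linarith
    have hutend : Tendsto u atTop (𝓝[≠] 0) := by
      rw [tendsto_nhdsWithin_iff]
      exact ⟨hulim, Eventually.of_forall fun k => (hu0 k).ne'⟩
    have hratio : Tendsto (fun k => w (u k) / φ (u k)) atTop atTop := hwφ.comp hutend
    have hbig : Tendsto (fun k => |((∑' i, t i (x + hk k)) - ∑' i, t i x) / φ (hk k)|) atTop atTop := by
      refine tendsto_atTop_mono ?_ (hratio.const_mul_atTop (show 0 < c / 2 by linarith))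
      intro k
      have hu4 : 0 < u k / 4 := by have := hu0 k; positivity
      have hφk : 0 < φ (hk k) := hφpos _ (by rw [hk1]; exact hu4)
        (by rw [hk1]; have := huδ k; have := hu0 k; linarith)
      have hφu : φ (hk k) ≤ φ (u k) := hφmono _ _ (by rw [hk1]; exact hu4)
        (by rw [hk1, abs_of_pos (hu0 k)]; have := hu0 k; linarith)
        (by rw [abs_of_pos (hu0 k)]; exact huδ k)
      have hφuk : 0 < φ (u k) := lt_of_lt_of_le hφk hφu
      rw [abs_div, abs_of_pos hφk]
      calc c / 2 * (w (u k) / φ (u k)) = (c / 2 * a k) / φ (u k) := by ring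
        _ ≤ (c / 2 * a k) / φ (hk k) :=
            div_le_div_of_nonneg_left (by have := hapos k; positivity) hφk hφu
        _ ≤ _ := div_le_div_of_nonneg_right (hk2 k) hφk.le
    have hE : Tendsto (fun k => ((|((∑' i, t i (x + hk k)) - ∑' i, t i x) / φ (hk k)| : ℝ) : EReal))
        atTop (𝓝 ⊤) := EReal.tendsto_coe_nhds_top_iff.2 hbig
    rw [← hE.limsup_eq]
    have h2 : limsup (fun h : ℝ => ((|((∑' i, t i (x + h)) - ∑' i, t i x) / φ h| : ℝ) : EReal))
        (Filter.map hk atTop) ≤
        limsup (fun h : ℝ => ((|((∑' i, t i (x + h)) - ∑' i, t i x) / φ h| : ℝ) : EReal))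
        (𝓝[≠] 0) := limsup_le_limsup_of_le hktend
    exact h2

end Pool.Agent.Results.MP_a2bddf_an.RuziewiczPositive
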